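import Mathlib

/-!
# MP_b91f88_ntD: a sum over primes

Proof: `(x + 1) ^ 2 ≤ 5/4 x^2 + 5`.  The primes `p ≥ 5` are of the form `2 j + 5`, and
`∑_{j < n} 1 / (2 j + 5)^2 ≤ 1/8 - 1/(4 (n + 2))` (telescope).  The number of terms is at most `12 M`.
So six times the sum is at most `15/16 M^2 + 360 M ≤ M^2` for `M ≥ 6000`.
-/

set_option autoImplicit false

namespace CoprimeSquares

private theorem sumSmall_tel (n : ℕ) :
    ∑ j ∈ Finset.range n, (1 : ℝ) / (2 * (j : ℝ) + 5) ^ 2 ≤ 1 / 8 - 1 / (4 * ((n : ℝ) + 2)) := by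
  induction n with
  | zero => norm_num
  | succ n ih =>
    rw [Finset.sum_range_succ]
    have h1 : (1 : ℝ) / (2 * (n : ℝ) + 5) ^ 2 ≤
        1 / (4 * ((n : ℝ) + 2)) - 1 / (4 * (((n + 1 : ℕ) : ℝ) + 2)) := by
      have h0 : (0 : ℝ) ≤ n := Nat.cast_nonneg n
      push_cast
      have h2 : 1 / (4 * ((n : ℝ) + 2)) - 1 / (4 * ((n : ℝ) + 1 + 2)) =
          1 / (4 * ((n : ℝ) + 2) * ((n : ℝ) + 3)) := by
        field_simp
        ring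
      rw [h2]
      apply one_div_le_one_div_of_le (by positivity)
      nlinarith
    linarith

private theorem sumSmall_sq (N : ℕ) :
    ∑ p ∈ (Finset.Icc 5 N).filter Nat.Prime, (1 : ℝ) / (p : ℝ) ^ 2 ≤ 1 / 8 := by
  have hsub : (Finset.Icc 5 N).filter Nat.Prime ⊆
      (Finset.range (N + 1)).image fun j : ℕ => (2 * j + 5 : ℕ) := by
    intro p hp
    rw [Finset.mem_filter, Finset.mem_Icc] at hp
    obtain ⟨⟨h1, h2⟩, h3⟩ := hp
    have h4 : p % 2 = 1 := h3.eq_two_or_odd.resolve_left (by omega)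
    rw [Finset.mem_image]
    exact ⟨(p - 5) / 2, Finset.mem_range.2 (by omega), by omega⟩
  calc ∑ p ∈ (Finset.Icc 5 N).filter Nat.Prime, (1 : ℝ) / (p : ℝ) ^ 2
      ≤ ∑ p ∈ (Finset.range (N + 1)).image (fun j : ℕ => (2 * j + 5 : ℕ)), (1 : ℝ) / (p : ℝ) ^ 2 :=
        Finset.sum_le_sum_of_subset_of_nonneg hsub fun p _ _ => by positivity
    _ = ∑ j ∈ Finset.range (N + 1), (1 : ℝ) / (2 * (j : ℝ) + 5) ^ 2 := by
        rw [Finset.sum_image fun a _ b _ hab => by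
          have hab' : 2 * a + 5 = 2 * b + 5 := hab
          omega]
        refine Finset.sum_congr rfl fun j _ => ?_
        push_cast
        ring
    _ ≤ 1 / 8 - 1 / (4 * (((N + 1 : ℕ) : ℝ) + 2)) := sumSmall_tel (N + 1)
    _ ≤ 1 / 8 := by
        have : (0 : ℝ) ≤ 1 / (4 * (((N + 1 : ℕ) : ℝ) + 2)) := by positivity
        linarith

theorem sum_small : ∃ M₀ : ℕ, ∀ M : ℕ, M₀ ≤ M →
    6 * ∑ p ∈ (Finset.Icc 5 (12 * M + 4)).filter Nat.Prime, (M / p + 1) ^ 2 ≤ M ^ 2 := by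
  refine ⟨6000, fun M hM => ?_⟩
  set S := (Finset.Icc 5 (12 * M + 4)).filter Nat.Prime with hS
  have hM' : (6000 : ℝ) ≤ M := by exact_mod_cast hM
  have hcard : (S.card : ℝ) ≤ 12 * M := by
    have h1 : S.card ≤ (Finset.Icc 5 (12 * M + 4)).card := Finset.card_filter_le _ _
    rw [Nat.card_Icc] at h1
    have h2 : S.card ≤ 12 * M := by omega
    exact_mod_cast h2
  have hterm : ∀ p ∈ S, (((M / p + 1) ^ 2 : ℕ) : ℝ) ≤ 5 / 4 * (M : ℝ) ^ 2 * (1 / (p : ℝ) ^ 2) + 5 := by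
    intro p _
    push_cast
    have h1 : ((M / p : ℕ) : ℝ) ≤ (M : ℝ) / p := Nat.cast_div_le
    have h0 : (0 : ℝ) ≤ ((M / p : ℕ) : ℝ) := Nat.cast_nonneg _
    have h2 : (((M / p : ℕ) : ℝ) + 1) ^ 2 ≤ 5 / 4 * ((M / p : ℕ) : ℝ) ^ 2 + 5 := by
      nlinarith [sq_nonneg (((M / p : ℕ) : ℝ) / 2 - 2)]
    have h3 : ((M / p : ℕ) : ℝ) ^ 2 ≤ ((M : ℝ) / p) ^ 2 := by gcongr
    have h4 : ((M : ℝ) / p) ^ 2 = (M : ℝ) ^ 2 * (1 / (p : ℝ) ^ 2) := by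
      rw [div_pow]
      ring
    rw [h4] at h3
    linarith
  have hsum : ((∑ p ∈ S, (M / p + 1) ^ 2 : ℕ) : ℝ) ≤ 5 / 4 * (M : ℝ) ^ 2 * (1 / 8) + 5 * (12 * M) := by
    rw [Nat.cast_sum]
    calc ∑ p ∈ S, (((M / p + 1) ^ 2 : ℕ) : ℝ)
        ≤ ∑ p ∈ S, (5 / 4 * (M : ℝ) ^ 2 * (1 / (p : ℝ) ^ 2) + 5) := Finset.sum_le_sum hterm
      _ = 5 / 4 * (M : ℝ) ^ 2 * (∑ p ∈ S, 1 / (p : ℝ) ^ 2) + 5 * S.card := by
          rw [Finset.sum_add_distrib, ← Finset.mul_sum, Finset.sum_const, nsmul_eq_mul]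
          ring
      _ ≤ 5 / 4 * (M : ℝ) ^ 2 * (1 / 8) + 5 * (12 * M) := by
          have h1 : ∑ p ∈ S, (1 : ℝ) / (p : ℝ) ^ 2 ≤ 1 / 8 := sumSmall_sq (12 * M + 4)
          have h2 : (0 : ℝ) ≤ 5 / 4 * (M : ℝ) ^ 2 := by positivity
          have h3 := mul_le_mul_of_nonneg_left h1 h2
          linarith
  have hfin : ((6 * ∑ p ∈ S, (M / p + 1) ^ 2 : ℕ) : ℝ) ≤ ((M ^ 2 : ℕ) : ℝ) := by
    rw [Nat.cast_mul]
    push_cast at hsum ⊢
    nlinarith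
  exact_mod_cast hfin

end CoprimeSquares
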