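import Mathlib
import Pool.Agent.Lib.MP_b91f88_ntD.SumSmall

/-!
# MP_b91f88_ntD: few pairs are not coprime

If `12 i + a` and `12 j + b` are not coprime, some prime `p` divides both; `p ≠ 2, 3` by `h2`, `h3`
(`12 i + a ≡ a` modulo 2 and 3), so `5 ≤ p ≤ 12 M + 4`.  For a prime `p ≥ 5` at most `M / p + 1` of the
`i < M` have `p ∣ 12 i + a` (they lie in one residue class modulo `p`, since `12` is invertible modulo `p`).
So the number of pairs is at most the sum of `sum_small`.
-/

set_option autoImplicit false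

namespace CoprimeSquares

open Finset

private theorem badPairs_count (p a M : ℕ) (hp : p.Prime) (hp5 : 5 ≤ p) :
    ((range M).filter fun i => p ∣ 12 * i + a).card ≤ M / p + 1 := by
  classical
  rcases ((range M).filter fun i => p ∣ 12 * i + a).eq_empty_or_nonempty with h | ⟨i0, hi0⟩
  · rw [h]; simp
  · have h0 := (mem_filter.1 hi0).2
    have hcop : Nat.gcd p 12 = 1 := by
      have h1 : Nat.Coprime p 12 := by
        rw [Nat.Prime.coprime_iff_not_dvd hp]
        intro hd
        have h12 : p ∣ 2 ^ 2 * 3 := by norm_num; exact hd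
        rcases (Nat.Prime.dvd_mul hp).1 h12 with h | h
        · have := (Nat.prime_dvd_prime_iff_eq hp Nat.prime_two).1 (hp.dvd_of_dvd_pow h)
          omega
        · have := (Nat.prime_dvd_prime_iff_eq hp Nat.prime_three).1 h
          omega
      exact h1
    have hsub : ((range M).filter fun i => p ∣ 12 * i + a) ⊆
        (range M).filter fun i => i ≡ i0 [MOD p] := by
      intro i hi
      rw [mem_filter] at hi ⊢
      refine ⟨hi.1, ?_⟩
      have h1 : 12 * i + a ≡ 12 * i0 + a [MOD p] :=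
        ((Nat.modEq_zero_iff_dvd).2 hi.2).trans ((Nat.modEq_zero_iff_dvd).2 h0).symm
      exact Nat.ModEq.cancel_left_of_coprime hcop (Nat.ModEq.add_right_cancel' a h1)
    refine (card_le_card hsub).trans ?_
    rw [← Nat.count_eq_card_filter_range, Nat.count_modEq_card _ (by omega)]
    split_ifs <;> omega

theorem bad_pairs (a b : ℕ) (ha : 1 ≤ a) (ha4 : a ≤ 4) (hb : 1 ≤ b) (hb4 : b ≤ 4)
    (h2 : ¬ (2 ∣ a ∧ 2 ∣ b)) (h3 : ¬ (3 ∣ a ∧ 3 ∣ b)) :
    ∃ M₀ : ℕ, ∀ M : ℕ, M₀ ≤ M →
      6 * ((Finset.range M ×ˢ Finset.range M).filter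
        fun p => ¬ Nat.Coprime (12 * p.1 + a) (12 * p.2 + b)).card ≤ M ^ 2 := by
  classical
  obtain ⟨M0, hM0⟩ := sum_small
  refine ⟨M0, fun M hM => ?_⟩
  have hsub : ((Finset.range M ×ˢ Finset.range M).filter
        fun p => ¬ Nat.Coprime (12 * p.1 + a) (12 * p.2 + b)) ⊆
      ((Finset.Icc 5 (12 * M + 4)).filter Nat.Prime).biUnion fun q =>
        ((range M).filter fun i => q ∣ 12 * i + a) ×ˢ ((range M).filter fun i => q ∣ 12 * i + b) := by
    rintro ⟨i, j⟩ hij
    rw [mem_filter, mem_product, mem_range, mem_range] at hij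
    obtain ⟨⟨hi, hj⟩, hc⟩ := hij
    obtain ⟨q, hq, hqa, hqb⟩ := Nat.Prime.not_coprime_iff_dvd.1 hc
    have hq2 : q ≠ 2 := by
      rintro rfl
      exact h2 ⟨by simp only at hqa; omega, by simp only at hqb; omega⟩
    have hq3 : q ≠ 3 := by
      rintro rfl
      exact h3 ⟨by simp only at hqa; omega, by simp only at hqb; omega⟩
    have hq4 : q ≠ 4 := by
      rintro rfl
      exact absurd hq (by decide)
    have hq5 : 5 ≤ q := by
      have := hq.two_le
      omega
    have hqM : q ≤ 12 * M + 4 := by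
      have := Nat.le_of_dvd (by simp only; omega) hqa
      simp only at this
      omega
    rw [mem_biUnion]
    refine ⟨q, mem_filter.2 ⟨Finset.mem_Icc.2 ⟨hq5, hqM⟩, hq⟩, ?_⟩
    rw [mem_product]
    exact ⟨mem_filter.2 ⟨mem_range.2 hi, hqa⟩, mem_filter.2 ⟨mem_range.2 hj, hqb⟩⟩
  have hle : ((Finset.range M ×ˢ Finset.range M).filter
        fun p => ¬ Nat.Coprime (12 * p.1 + a) (12 * p.2 + b)).card ≤
      ∑ p ∈ (Finset.Icc 5 (12 * M + 4)).filter Nat.Prime, (M / p + 1) ^ 2 := by
    refine (card_le_card hsub).trans (card_biUnion_le.trans (sum_le_sum fun q hq => ?_))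
    have hq' := mem_filter.1 hq
    have hq5 := (Finset.mem_Icc.1 hq'.1).1
    rw [card_product, sq]
    exact Nat.mul_le_mul (badPairs_count q a M hq'.2 hq5) (badPairs_count q b M hq'.2 hq5)
  exact (Nat.mul_le_mul_left 6 hle).trans (hM0 M hM)

end CoprimeSquares
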