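import Mathlib

/-!
# MP_b91f88_ntD: Cauchy-Schwarz for the values of a function

Proof: `#T = ∑_{n ∈ v(T)} #(fiber of n)`, `(∑ f)^2 ≤ #v(T) ∑ f^2` (`sq_sum_le_card_mul_sum_sq`), and
`∑ f^2` is the number of pairs with equal value.
-/

set_option autoImplicit false

namespace CoprimeSquares

theorem card_sq_le {α : Type*} [DecidableEq α] (T : Finset α) (v : α → ℕ) :
    T.card ^ 2 ≤ (T.image v).card * ((T ×ˢ T).filter fun q => v q.1 = v q.2).card := by
  have h1 : T.card = ∑ n ∈ T.image v, (T.filter fun x => v x = n).card :=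
    Finset.card_eq_sum_card_image v T
  have h2 : ((T ×ˢ T).filter fun q => v q.1 = v q.2).card =
      ∑ n ∈ T.image v, (T.filter fun x => v x = n).card ^ 2 := by
    rw [Finset.card_eq_sum_card_fiberwise (f := fun q : α × α => v q.1) (t := T.image v)]
    · refine Finset.sum_congr rfl fun n _ => ?_
      rw [sq, ← Finset.card_product]
      congr 1
      ext q
      simp only [Finset.mem_filter, Finset.mem_product]
      constructor
      · rintro ⟨⟨⟨ha, hb⟩, hc⟩, hd⟩
        exact ⟨⟨ha, hd⟩, hb, hc ▸ hd⟩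
      · rintro ⟨⟨ha, hb⟩, hc, hd⟩
        exact ⟨⟨⟨ha, hc⟩, hb.trans hd.symm⟩, hb⟩
    · intro q hq
      rw [Finset.mem_coe, Finset.mem_filter, Finset.mem_product] at hq
      exact Finset.mem_coe.2 (Finset.mem_image_of_mem v hq.1.1)
  rw [h2]
  calc T.card ^ 2 = (∑ n ∈ T.image v, (T.filter fun x => v x = n).card) ^ 2 := by rw [← h1]
    _ ≤ (T.image v).card * ∑ n ∈ T.image v, (T.filter fun x => v x = n).card ^ 2 :=
        sq_sum_le_card_mul_sum_sq

end CoprimeSquares
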