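import Mathlib

/-!
# MP_b91f88_ntD: the solutions of one linear equation in a box

Sketch: let `h = gcd d f`.  A solution has `h ∣ a b`, so `a` is a multiple of `h' = h / gcd h b`; there are at
most `2 X / h' + 1 ≤ 4 X / h'` such `a` in `[-X, X]` (`h' ≤ f ≤ 2 X`).  Given `a`, the `c` with
`f ∣ a b + c d` lie in one residue class modulo `f / h ≤ 2 X`, so there are at most
`2 X / (f / h) + 1 ≤ 4 X h / f` of them, and then `e` is determined.  The product is
`16 X^2 gcd (h, b) / f`.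
-/

set_option autoImplicit false

namespace CoprimeSquares

private theorem co_res (X m : ℕ) (hm : 1 ≤ m) (S : Finset ℤ)
    (hS : S ⊆ Finset.Icc (-(X : ℤ)) X) (hc : ∀ x ∈ S, ∀ y ∈ S, (m : ℤ) ∣ x - y) :
    S.card ≤ 2 * X / m + 1 := by
  rcases S.eq_empty_or_nonempty with h | h
  · rw [h]
    simp
  · set x0 := S.min' h with hx0
    have hx0S : x0 ∈ S := S.min'_mem h
    have hm0 : (0 : ℤ) < m := by exact_mod_cast hm
    have hb : ∀ x ∈ S, 0 ≤ x - x0 ∧ x - x0 ≤ 2 * (X : ℤ) := by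
      intro x hx
      have h1 : x0 ≤ x := S.min'_le x hx
      have h2 := Finset.mem_Icc.1 (hS hx)
      have h3 := Finset.mem_Icc.1 (hS hx0S)
      constructor
      · linarith
      · linarith [h2.2, h3.1]
    have h1 : S.card ≤ (Finset.range (2 * X / m + 1)).card := by
      refine Finset.card_le_card_of_injOn (fun x => ((x - x0) / (m : ℤ)).toNat) ?_ ?_
      · intro x hx
        have h2 := hb x hx
        rw [Finset.mem_coe, Finset.mem_range]
        have h3 : (x - x0) / (m : ℤ) ≤ 2 * (X : ℤ) / m := Int.ediv_le_ediv hm0 h2.2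
        have h4 : 0 ≤ (x - x0) / (m : ℤ) := Int.ediv_nonneg h2.1 hm0.le
        have h5 : ((2 * X / m : ℕ) : ℤ) = 2 * (X : ℤ) / m := by push_cast; rfl
        rw [← h5] at h3
        show ((x - x0) / (m : ℤ)).toNat < 2 * X / m + 1
        omega
      · intro x hx y hy hxy
        obtain ⟨k, hk⟩ := hc x hx x0 hx0S
        obtain ⟨l, hl⟩ := hc y hy x0 hx0S
        have h2 := hb x hx
        have h3 := hb y hy
        have h4 : (x - x0) / (m : ℤ) = k := by
          rw [hk]
          exact Int.mul_ediv_cancel_left _ hm0.ne'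
        have h5 : (y - x0) / (m : ℤ) = l := by
          rw [hl]
          exact Int.mul_ediv_cancel_left _ hm0.ne'
        have h6 : 0 ≤ (x - x0) / (m : ℤ) := Int.ediv_nonneg h2.1 hm0.le
        have h7 : 0 ≤ (y - x0) / (m : ℤ) := Int.ediv_nonneg h3.1 hm0.le
        have h8 : ((x - x0) / (m : ℤ)).toNat = ((y - x0) / (m : ℤ)).toNat := hxy
        rw [h4] at h6 h8
        rw [h5] at h7 h8
        have h9 : k = l := by omega
        rw [h9] at hk
        linarith
    rw [Finset.card_range] at h1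
    exact h1

theorem count_one (X b d f : ℕ) (hb : 1 ≤ b) (hd : 1 ≤ d) (hf : 1 ≤ f) (hfX : f ≤ 2 * X) :
    f * ((Finset.Icc (-(X : ℤ)) X ×ˢ Finset.Icc (-(X : ℤ)) X ×ˢ Finset.Icc (-(X : ℤ)) X).filter
      fun t : ℤ × ℤ × ℤ => t.1 * (b : ℤ) + t.2.1 * (d : ℤ) + t.2.2 * (f : ℤ) = 0).card ≤
      16 * X ^ 2 * Nat.gcd (Nat.gcd b d) f := by
  classical
  set T := (Finset.Icc (-(X : ℤ)) X ×ˢ Finset.Icc (-(X : ℤ)) X ×ˢ Finset.Icc (-(X : ℤ)) X).filter
      fun t : ℤ × ℤ × ℤ => t.1 * (b : ℤ) + t.2.1 * (d : ℤ) + t.2.2 * (f : ℤ) = 0 with hT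
  have hmem : ∀ t ∈ T, t.1 ∈ Finset.Icc (-(X : ℤ)) X ∧ t.2.1 ∈ Finset.Icc (-(X : ℤ)) X ∧
      t.1 * (b : ℤ) + t.2.1 * (d : ℤ) + t.2.2 * (f : ℤ) = 0 := by
    intro t ht
    rw [hT, Finset.mem_filter, Finset.mem_product, Finset.mem_product] at ht
    exact ⟨ht.1.1, ht.1.2.1, ht.2⟩
  obtain ⟨g, hg⟩ : ∃ g, g = Nat.gcd b (Nat.gcd d f) := ⟨_, rfl⟩
  obtain ⟨h, hh⟩ : ∃ h, h = Nat.gcd d f := ⟨_, rfl⟩
  rw [Nat.gcd_assoc, ← hg]
  obtain ⟨b', h', hcop, hb', hh'⟩ := Nat.exists_coprime b (Nat.gcd d f)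
  obtain ⟨d', m, hcop2, hd', hm⟩ := Nat.exists_coprime d f
  rw [← hg] at hb' hh'
  rw [← hh] at hd' hm hh'
  have hh0 : 0 < h := by
    rw [hh]
    exact Nat.gcd_pos_of_pos_right _ (by omega)
  have hh'0 : 0 < h' := Nat.pos_of_ne_zero (by rintro rfl; omega)
  have hm0 : 0 < m := Nat.pos_of_ne_zero (by rintro rfl; omega)
  have hg0 : 0 < g := Nat.pos_of_ne_zero (by rintro rfl; omega)
  have hmf : m ≤ f := by
    rw [hm]
    exact Nat.le_mul_of_pos_right m hh0
  have hhf : h ≤ f := by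
    have : h ≤ m * h := Nat.le_mul_of_pos_left h hm0
    omega
  have hh'f : h' ≤ f := by
    have : h' ≤ h' * g := Nat.le_mul_of_pos_right h' hg0
    omega
  have hg0' : (g : ℤ) ≠ 0 := by exact_mod_cast hg0.ne'
  have hh0' : (h : ℤ) ≠ 0 := by exact_mod_cast hh0.ne'
  have ebz : (b : ℤ) = b' * g := by exact_mod_cast hb'
  have ehz : (h : ℤ) = h' * g := by exact_mod_cast hh'
  have edz : (d : ℤ) = d' * h := by exact_mod_cast hd'
  have efz : (f : ℤ) = m * h := by exact_mod_cast hm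
  -- the first coordinates
  have hA : (T.image fun t => t.1).card ≤ 2 * X / h' + 1 := by
    refine co_res X h' hh'0 _ ?_ ?_
    · intro a ha
      obtain ⟨t, ht, rfl⟩ := Finset.mem_image.1 ha
      exact (hmem t ht).1
    · have hdvd : ∀ a ∈ T.image (fun t => t.1), (h' : ℤ) ∣ a := by
        intro a ha
        obtain ⟨t, ht, rfl⟩ := Finset.mem_image.1 ha
        have h1 := (hmem t ht).2.2
        have h2 : t.1 * (b' : ℤ) = h' * (-(t.2.1 * d' + t.2.2 * m)) := by
          have h3 : (g : ℤ) * (t.1 * (b' : ℤ)) = g * (h' * (-(t.2.1 * d' + t.2.2 * m))) := by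
            rw [ebz, edz, efz, ehz] at h1
            linear_combination h1
          exact mul_left_cancel₀ hg0' h3
        have h4 : (h' : ℤ) ∣ t.1 * (b' : ℤ) := ⟨_, h2⟩
        have h5 : IsCoprime (h' : ℤ) (b' : ℤ) := (Nat.isCoprime_iff_coprime.2 hcop).symm
        exact h5.dvd_of_dvd_mul_right h4
      intro x hx y hy
      exact dvd_sub (hdvd x hx) (hdvd y hy)
  have hF : ∀ a ∈ T.image (fun t => t.1), (T.filter fun t => t.1 = a).card ≤ 2 * X / m + 1 := by
    intro a _
    have h1 : (T.filter fun t => t.1 = a).card =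
        ((T.filter fun t => t.1 = a).image fun t => t.2.1).card := by
      rw [Finset.card_image_of_injOn]
      intro x hx y hy hxy
      rw [Finset.mem_coe, Finset.mem_filter] at hx hy
      have h2 := (hmem x hx.1).2.2
      have h3 := (hmem y hy.1).2.2
      have h4 : x.1 = y.1 := hx.2.trans hy.2.symm
      have h5 : x.2.1 = y.2.1 := hxy
      have hf0 : (f : ℤ) ≠ 0 := by
        have : f ≠ 0 := by omega
        exact_mod_cast this
      have h6 : x.2.2 = y.2.2 := by
        have h7 : x.2.2 * (f : ℤ) = y.2.2 * f := by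
          rw [h4, h5] at h2
          linarith
        exact mul_right_cancel₀ hf0 h7
      exact Prod.ext h4 (Prod.ext h5 h6)
    rw [h1]
    refine co_res X m hm0 _ ?_ ?_
    · intro c hc
      obtain ⟨t, ht, rfl⟩ := Finset.mem_image.1 hc
      exact (hmem t (Finset.mem_filter.1 ht).1).2.1
    · intro c hc c2 hc2
      obtain ⟨t, ht, rfl⟩ := Finset.mem_image.1 hc
      obtain ⟨u, hu, rfl⟩ := Finset.mem_image.1 hc2
      rw [Finset.mem_filter] at ht hu
      have h2 := (hmem t ht.1).2.2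
      have h3 := (hmem u hu.1).2.2
      have h4 : t.1 = u.1 := ht.2.trans hu.2.symm
      have h5 : (t.2.1 - u.2.1) * (d' : ℤ) = m * (u.2.2 - t.2.2) := by
        have h6 : (h : ℤ) * ((t.2.1 - u.2.1) * (d' : ℤ)) = h * (m * (u.2.2 - t.2.2)) := by
          rw [h4] at h2
          rw [edz, efz] at h2 h3
          linear_combination h2 - h3
        exact mul_left_cancel₀ hh0' h6
      have h7 : (m : ℤ) ∣ (t.2.1 - u.2.1) * (d' : ℤ) := ⟨_, h5⟩
      have h8 : IsCoprime (m : ℤ) (d' : ℤ) := (Nat.isCoprime_iff_coprime.2 hcop2).symm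
      exact h8.dvd_of_dvd_mul_right h7
  have hcard : T.card ≤ (2 * X / m + 1) * (T.image fun t => t.1).card :=
    Finset.card_le_mul_card_image T _ hF
  have h1 : T.card ≤ (2 * X / m + 1) * (2 * X / h' + 1) :=
    hcard.trans (Nat.mul_le_mul_left _ hA)
  have h2 : m * (2 * X / m + 1) ≤ 4 * X := by
    have := Nat.mul_div_le (2 * X) m
    rw [mul_add, mul_one]
    omega
  have h3 : h' * (2 * X / h' + 1) ≤ 4 * X := by
    have := Nat.mul_div_le (2 * X) h'
    rw [mul_add, mul_one]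
    omega
  have hfe : f = m * (h' * g) := by
    rw [← hh']
    exact hm
  calc f * T.card ≤ f * ((2 * X / m + 1) * (2 * X / h' + 1)) := Nat.mul_le_mul_left _ h1
    _ = (m * (2 * X / m + 1)) * (h' * (2 * X / h' + 1)) * g := by
        rw [hfe]
        generalize 2 * X / m + 1 = U
        generalize 2 * X / h' + 1 = V
        ring
    _ ≤ (4 * X) * (4 * X) * g := Nat.mul_le_mul_right _ (Nat.mul_le_mul h2 h3)
    _ = 16 * X ^ 2 * g := by ring

end CoprimeSquares
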