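import Mathlib

/-!
# MP_b91f88_ntD: a sum of greatest common divisors

Sketch: `gcd (gcd b d) f ≤ ∑ g ∈ divisors of f with g ∣ b and g ∣ d, g` (the gcd is one of these `g`), so the
inner double sum is at most `∑_{g ∣ f} g (f/g)^2 = f ∑_{g ∣ f} f/g = f σ(f)`, and
`∑_{f ≤ Y} σ(f) = ∑_{g ≤ Y} g ⌊Y/g⌋ ≤ Y^2`.
-/

set_option autoImplicit false

namespace CoprimeSquares

private theorem gs_card (f g : ℕ) : ((Finset.Icc 1 f).filter fun b => g ∣ b).card = f / g := by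
  rw [← Nat.Ioc_filter_dvd_card_eq_div]
  congr 1

private theorem gs_gcd_le {b d f : ℕ} (hf : 1 ≤ f) :
    Nat.gcd (Nat.gcd b d) f ≤ ∑ g ∈ f.divisors, if g ∣ b ∧ g ∣ d then g else 0 := by
  have hmem : Nat.gcd (Nat.gcd b d) f ∈ f.divisors :=
    Nat.mem_divisors.2 ⟨Nat.gcd_dvd_right _ _, by omega⟩
  have h1 : (if Nat.gcd (Nat.gcd b d) f ∣ b ∧ Nat.gcd (Nat.gcd b d) f ∣ d then
      Nat.gcd (Nat.gcd b d) f else 0) = Nat.gcd (Nat.gcd b d) f := by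
    rw [if_pos]
    exact ⟨(Nat.gcd_dvd_left _ _).trans (Nat.gcd_dvd_left _ _),
      (Nat.gcd_dvd_left _ _).trans (Nat.gcd_dvd_right _ _)⟩
  calc Nat.gcd (Nat.gcd b d) f = _ := h1.symm
    _ ≤ _ := Finset.single_le_sum (f := fun g => if g ∣ b ∧ g ∣ d then g else 0)
      (fun _ _ => Nat.zero_le _) hmem

private theorem gs_inner {f : ℕ} (hf : 1 ≤ f) :
    (∑ b ∈ Finset.Icc 1 f, ∑ d ∈ Finset.Icc 1 f, Nat.gcd (Nat.gcd b d) f) ≤
      f * ∑ g ∈ f.divisors, g := by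
  calc (∑ b ∈ Finset.Icc 1 f, ∑ d ∈ Finset.Icc 1 f, Nat.gcd (Nat.gcd b d) f)
      ≤ ∑ b ∈ Finset.Icc 1 f, ∑ d ∈ Finset.Icc 1 f,
          ∑ g ∈ f.divisors, (if g ∣ b ∧ g ∣ d then g else 0) :=
        Finset.sum_le_sum fun b _ => Finset.sum_le_sum fun d _ => gs_gcd_le hf
    _ = ∑ g ∈ f.divisors, ∑ b ∈ Finset.Icc 1 f, ∑ d ∈ Finset.Icc 1 f,
          (if g ∣ b ∧ g ∣ d then g else 0) := by
        rw [Finset.sum_comm' (s := f.divisors) (t := fun _ => Finset.Icc 1 f)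
          (t' := Finset.Icc 1 f) (s' := fun _ => f.divisors) (by tauto)]
        refine Finset.sum_congr rfl fun b _ => ?_
        rw [Finset.sum_comm]
    _ = ∑ g ∈ f.divisors, f * (f / g) := by
        refine Finset.sum_congr rfl fun g hg => ?_
        have h1 : ∀ b ∈ Finset.Icc 1 f, (∑ d ∈ Finset.Icc 1 f,
            (if g ∣ b ∧ g ∣ d then g else 0)) = if g ∣ b then (f / g) * g else 0 := by
          intro b _
          by_cases hb : g ∣ b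
          · simp only [hb, true_and, if_true]
            rw [← Finset.sum_filter, Finset.sum_const, gs_card, smul_eq_mul]
          · simp [hb]
        rw [Finset.sum_congr rfl h1, ← Finset.sum_filter, Finset.sum_const, gs_card, smul_eq_mul,
          Nat.div_mul_cancel (Nat.dvd_of_mem_divisors hg), mul_comm]
    _ = f * ∑ g ∈ f.divisors, g := by
        rw [← Finset.mul_sum, Nat.sum_div_divisors f (fun x => x)]

private theorem gs_sigma (Y : ℕ) :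
    (∑ f ∈ Finset.Icc 1 Y, ∑ g ∈ f.divisors, g) ≤ Y * Y := by
  have h1 : ∀ f ∈ Finset.Icc 1 Y, (∑ g ∈ f.divisors, g) ≤
      ∑ g ∈ Finset.Icc 1 Y, if g ∣ f then g else 0 := by
    intro f hf
    rw [Finset.mem_Icc] at hf
    rw [← Finset.sum_filter]
    refine Finset.sum_le_sum_of_subset ?_
    intro g hg
    have hgd := Nat.dvd_of_mem_divisors hg
    rw [Finset.mem_filter, Finset.mem_Icc]
    exact ⟨⟨Nat.pos_of_dvd_of_pos hgd (by omega), (Nat.le_of_dvd (by omega) hgd).trans hf.2⟩, hgd⟩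
  refine (Finset.sum_le_sum h1).trans ?_
  rw [Finset.sum_comm]
  have h2 : ∀ g ∈ Finset.Icc 1 Y, (∑ f ∈ Finset.Icc 1 Y, if g ∣ f then g else 0) ≤ Y := by
    intro g _
    rw [← Finset.sum_filter, Finset.sum_const, gs_card, smul_eq_mul]
    exact Nat.div_mul_le_self Y g
  refine (Finset.sum_le_sum h2).trans ?_
  simp

theorem gcd_sum (Y : ℕ) :
    ∑ f ∈ Finset.Icc 1 Y,
      ((∑ b ∈ Finset.Icc 1 f, ∑ d ∈ Finset.Icc 1 f, Nat.gcd (Nat.gcd b d) f : ℕ) : ℝ) / f ≤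
      (Y : ℝ) ^ 2 := by
  have h1 : ∀ f ∈ Finset.Icc 1 Y,
      ((∑ b ∈ Finset.Icc 1 f, ∑ d ∈ Finset.Icc 1 f, Nat.gcd (Nat.gcd b d) f : ℕ) : ℝ) / f ≤
        ((∑ g ∈ f.divisors, g : ℕ) : ℝ) := by
    intro f hf
    rw [Finset.mem_Icc] at hf
    have hf0 : (0 : ℝ) < f := by exact_mod_cast hf.1
    rw [div_le_iff₀ hf0]
    have h2 := gs_inner hf.1
    have h3 : ((∑ b ∈ Finset.Icc 1 f, ∑ d ∈ Finset.Icc 1 f, Nat.gcd (Nat.gcd b d) f : ℕ) : ℝ) ≤
        ((f * ∑ g ∈ f.divisors, g : ℕ) : ℝ) := by exact_mod_cast h2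
    refine h3.trans (le_of_eq ?_)
    rw [Nat.cast_mul, mul_comm]
  refine (Finset.sum_le_sum h1).trans ?_
  have h4 := gs_sigma Y
  have h5 : ((∑ f ∈ Finset.Icc 1 Y, ∑ g ∈ f.divisors, g : ℕ) : ℝ) ≤ ((Y * Y : ℕ) : ℝ) := by
    exact_mod_cast h4
  rw [Nat.cast_sum, Nat.cast_mul] at h5
  rw [pow_two]
  exact h5

end CoprimeSquares
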