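import Mathlib
import Pool.Agent.Lib.MP_b91f88_ntD.GcdSum
import Pool.Agent.Lib.MP_b91f88_ntD.CountOne

/-!
# MP_b91f88_ntD: the equation `ab + cd + ef = 0`

Sketch of `six_max`: sum `count_one` (divided by `f`) over `b, d ≤ f ≤ 2 X` and use `gcd_sum (2 X)`:
`16 X^2 (2 X)^2 = 64 X^4`.
-/

set_option autoImplicit false

namespace CoprimeSquares

/-- The solutions of `ab + cd + ef = 0` with `a, c, e` in `[-X, X]` and `b, d, f` in `[1, 2X]`. -/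
noncomputable def six (X : ℕ) : Finset ((ℤ × ℤ × ℤ) × (ℕ × ℕ × ℕ)) :=
  ((Finset.Icc (-(X : ℤ)) X ×ˢ Finset.Icc (-(X : ℤ)) X ×ˢ Finset.Icc (-(X : ℤ)) X) ×ˢ
    (Finset.Icc 1 (2 * X) ×ˢ Finset.Icc 1 (2 * X) ×ˢ Finset.Icc 1 (2 * X))).filter
  fun q : (ℤ × ℤ × ℤ) × (ℕ × ℕ × ℕ) =>
    q.1.1 * (q.2.1 : ℤ) + q.1.2.1 * (q.2.2.1 : ℤ) + q.1.2.2 * (q.2.2.2 : ℤ) = 0

private noncomputable def sixN (X b d f : ℕ) : Finset (ℤ × ℤ × ℤ) :=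
  (Finset.Icc (-(X : ℤ)) X ×ˢ Finset.Icc (-(X : ℤ)) X ×ˢ Finset.Icc (-(X : ℤ)) X).filter
    fun t : ℤ × ℤ × ℤ => t.1 * (b : ℤ) + t.2.1 * (d : ℤ) + t.2.2 * (f : ℤ) = 0

private theorem six_max_sub (X : ℕ) :
    ((six X).filter fun q => q.2.1 ≤ q.2.2.2 ∧ q.2.2.1 ≤ q.2.2.2) ⊆
      (Finset.Icc 1 (2 * X)).biUnion fun f => (Finset.Icc 1 f).biUnion fun b =>
        (Finset.Icc 1 f).biUnion fun d => (sixN X b d f).image fun t => (t, (b, d, f)) := by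
  rintro ⟨⟨a, c, e⟩, ⟨b, d, f⟩⟩ hq
  simp only [six, Finset.mem_filter, Finset.mem_product, Finset.mem_Icc] at hq
  obtain ⟨⟨⟨⟨ha, hc, he⟩, hb, hd, hf⟩, h0⟩, h1, h2⟩ := hq
  simp only [Finset.mem_biUnion, Finset.mem_image, Finset.mem_Icc]
  refine ⟨f, hf, b, ⟨hb.1, h1⟩, d, ⟨hd.1, h2⟩, (a, c, e), ?_, rfl⟩
  simp only [sixN, Finset.mem_filter, Finset.mem_product, Finset.mem_Icc]
  exact ⟨⟨ha, hc, he⟩, h0⟩

theorem six_max (X : ℕ) :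
    ((six X).filter fun q => q.2.1 ≤ q.2.2.2 ∧ q.2.2.1 ≤ q.2.2.2).card ≤ 64 * X ^ 4 := by
  have h1 : ((six X).filter fun q => q.2.1 ≤ q.2.2.2 ∧ q.2.2.1 ≤ q.2.2.2).card ≤
      ∑ f ∈ Finset.Icc 1 (2 * X), ∑ b ∈ Finset.Icc 1 f, ∑ d ∈ Finset.Icc 1 f,
        (sixN X b d f).card := by
    refine (Finset.card_le_card (six_max_sub X)).trans ?_
    refine Finset.card_biUnion_le.trans (Finset.sum_le_sum fun f _ => ?_)
    refine Finset.card_biUnion_le.trans (Finset.sum_le_sum fun b _ => ?_)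
    refine Finset.card_biUnion_le.trans (Finset.sum_le_sum fun d _ => ?_)
    exact Finset.card_image_le
  have h2 : ((∑ f ∈ Finset.Icc 1 (2 * X), ∑ b ∈ Finset.Icc 1 f, ∑ d ∈ Finset.Icc 1 f,
        (sixN X b d f).card : ℕ) : ℝ) ≤ 16 * (X : ℝ) ^ 2 * ∑ f ∈ Finset.Icc 1 (2 * X),
      ((∑ b ∈ Finset.Icc 1 f, ∑ d ∈ Finset.Icc 1 f, Nat.gcd (Nat.gcd b d) f : ℕ) : ℝ) / f := by
    rw [Finset.mul_sum, Nat.cast_sum]
    refine Finset.sum_le_sum fun f hf => ?_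
    rw [Finset.mem_Icc] at hf
    have hf0 : (0 : ℝ) < f := by exact_mod_cast hf.1
    rw [← mul_div_assoc, le_div_iff₀ hf0]
    have h3 : (∑ b ∈ Finset.Icc 1 f, ∑ d ∈ Finset.Icc 1 f, (sixN X b d f).card) * f ≤
        16 * X ^ 2 * ∑ b ∈ Finset.Icc 1 f, ∑ d ∈ Finset.Icc 1 f, Nat.gcd (Nat.gcd b d) f := by
      rw [Finset.sum_mul, Finset.mul_sum]
      refine Finset.sum_le_sum fun b hb => ?_
      rw [Finset.sum_mul, Finset.mul_sum]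
      refine Finset.sum_le_sum fun d hd => ?_
      rw [Finset.mem_Icc] at hb hd
      rw [mul_comm]
      exact count_one X b d f hb.1 hd.1 hf.1 hf.2
    exact_mod_cast h3
  have h4 : ∑ f ∈ Finset.Icc 1 (2 * X),
      ((∑ b ∈ Finset.Icc 1 f, ∑ d ∈ Finset.Icc 1 f, Nat.gcd (Nat.gcd b d) f : ℕ) : ℝ) / f ≤
      ((2 * X : ℕ) : ℝ) ^ 2 := gcd_sum (2 * X)
  have h5 : ((((six X).filter fun q => q.2.1 ≤ q.2.2.2 ∧ q.2.2.1 ≤ q.2.2.2).card : ℕ) : ℝ) ≤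
      ((64 * X ^ 4 : ℕ) : ℝ) := by
    calc ((((six X).filter fun q => q.2.1 ≤ q.2.2.2 ∧ q.2.2.1 ≤ q.2.2.2).card : ℕ) : ℝ)
        ≤ _ := Nat.cast_le.2 h1
      _ ≤ _ := h2
      _ ≤ 16 * (X : ℝ) ^ 2 * ((2 * X : ℕ) : ℝ) ^ 2 := mul_le_mul_of_nonneg_left h4 (by positivity)
      _ = ((64 * X ^ 4 : ℕ) : ℝ) := by
        push_cast
        ring
  exact_mod_cast h5

end CoprimeSquares
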