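import Mathlib
import Pool.Agent.Lib.MP_b91f88_ntD.Six

/-!
# MP_b91f88_ntD: the number of solutions of `ab + cd + ef = 0`

One of `b, d, f` is the largest; by symmetry (exchange of the three pairs) each of the three cases has at
most `64 X^4` solutions by `six_max`.
-/

set_option autoImplicit false

namespace CoprimeSquares

open Finset

theorem six_le (X : ℕ) : (six X).card ≤ 192 * X ^ 4 := by
  classical
  set B3 := (six X).filter fun q => q.2.1 ≤ q.2.2.2 ∧ q.2.2.1 ≤ q.2.2.2 with hB3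
  set B1 := (six X).filter fun q => q.2.2.2 ≤ q.2.1 ∧ q.2.2.1 ≤ q.2.1 with hB1
  set B2 := (six X).filter fun q => q.2.1 ≤ q.2.2.1 ∧ q.2.2.2 ≤ q.2.2.1 with hB2
  have h3 : B3.card ≤ 64 * X ^ 4 := six_max X
  have h1 : B1.card ≤ B3.card := by
    refine card_le_card_of_injOn
      (fun q => ((q.1.2.2, q.1.2.1, q.1.1), (q.2.2.2, q.2.2.1, q.2.1))) ?_ ?_
    · rintro ⟨⟨a, c, e⟩, ⟨b, d, f⟩⟩ hq
      simp only [hB1, hB3, six, coe_filter, mem_filter, mem_product, Finset.mem_Icc,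
        Set.mem_ofPred_eq] at hq ⊢
      obtain ⟨⟨⟨⟨ha, hc, he⟩, ⟨hb, hd, hf⟩⟩, h0⟩, h4, h5⟩ := hq
      exact ⟨⟨⟨⟨he, hc, ha⟩, ⟨hf, hd, hb⟩⟩, by linarith⟩, h4, h5⟩
    · rintro ⟨⟨a, c, e⟩, ⟨b, d, f⟩⟩ _ ⟨⟨a', c', e'⟩, ⟨b', d', f'⟩⟩ _ h
      simp only [Prod.mk.injEq] at h ⊢
      exact ⟨⟨h.1.2.2, h.1.2.1, h.1.1⟩, ⟨h.2.2.2, h.2.2.1, h.2.1⟩⟩
  have h2 : B2.card ≤ B3.card := by
    refine card_le_card_of_injOn
      (fun q => ((q.1.1, q.1.2.2, q.1.2.1), (q.2.1, q.2.2.2, q.2.2.1))) ?_ ?_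
    · rintro ⟨⟨a, c, e⟩, ⟨b, d, f⟩⟩ hq
      simp only [hB2, hB3, six, coe_filter, mem_filter, mem_product, Finset.mem_Icc,
        Set.mem_ofPred_eq] at hq ⊢
      obtain ⟨⟨⟨⟨ha, hc, he⟩, ⟨hb, hd, hf⟩⟩, h0⟩, h4, h5⟩ := hq
      exact ⟨⟨⟨⟨ha, he, hc⟩, ⟨hb, hf, hd⟩⟩, by linarith⟩, h4, h5⟩
    · rintro ⟨⟨a, c, e⟩, ⟨b, d, f⟩⟩ _ ⟨⟨a', c', e'⟩, ⟨b', d', f'⟩⟩ _ h
      simp only [Prod.mk.injEq] at h ⊢
      exact ⟨⟨h.1.1, h.1.2.2, h.1.2.1⟩, ⟨h.2.1, h.2.2.2, h.2.2.1⟩⟩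
  have hsub : six X ⊆ B1 ∪ (B2 ∪ B3) := by
    intro q hq
    rcases le_total q.2.1 q.2.2.2 with e1 | e1
    · rcases le_total q.2.2.1 q.2.2.2 with e2 | e2
      · exact mem_union_right _ (mem_union_right _ (mem_filter.2 ⟨hq, e1, e2⟩))
      · exact mem_union_right _ (mem_union_left _ (mem_filter.2 ⟨hq, e1.trans e2, e2⟩))
    · rcases le_total q.2.2.1 q.2.1 with e2 | e2
      · exact mem_union_left _ (mem_filter.2 ⟨hq, e1, e2⟩)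
      · exact mem_union_right _ (mem_union_left _ (mem_filter.2 ⟨hq, e2, e1.trans e2⟩))
  have hle : (six X).card ≤ B1.card + (B2.card + B3.card) :=
    (card_le_card hsub).trans ((card_union_le _ _).trans
      (Nat.add_le_add_left (card_union_le _ _) _))
  omega

end CoprimeSquares
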