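import Mathlib
import Pool.Agent.Lib.MP_b91f88_ntD.SixLe

/-!
# MP_b91f88_ntD: the number of solutions of `x² + y² + z² = u² + v² + w²`

Sketch: the map `((x,y,z),(u,v,w)) ↦ ((x-u, y-v, z-w), (x+u, y+v, z+w))` is injective into `six X`.
-/

set_option autoImplicit false

namespace CoprimeSquares

/-- The map of the sketch. -/
private def energyMap (q : (ℕ × ℕ × ℕ) × (ℕ × ℕ × ℕ)) : (ℤ × ℤ × ℤ) × (ℕ × ℕ × ℕ) :=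
  (((q.1.1 : ℤ) - q.2.1, (q.1.2.1 : ℤ) - q.2.2.1, (q.1.2.2 : ℤ) - q.2.2.2),
    (q.1.1 + q.2.1, q.1.2.1 + q.2.2.1, q.1.2.2 + q.2.2.2))

theorem energy (X : ℕ) :
    (((Finset.Icc 1 X ×ˢ Finset.Icc 1 X ×ˢ Finset.Icc 1 X) ×ˢ
      (Finset.Icc 1 X ×ˢ Finset.Icc 1 X ×ˢ Finset.Icc 1 X)).filter
        fun q => q.1.1 ^ 2 + q.1.2.1 ^ 2 + q.1.2.2 ^ 2 =
          q.2.1 ^ 2 + q.2.2.1 ^ 2 + q.2.2.2 ^ 2).card ≤ 192 * X ^ 4 := by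
  refine le_trans (Finset.card_le_card_of_injOn energyMap ?_ ?_) (six_le X)
  · rintro ⟨⟨x, y, z⟩, ⟨u, v, w⟩⟩ hq
    simp only [Finset.coe_filter, Finset.mem_product, Finset.mem_Icc, Set.mem_setOf_eq] at hq
    obtain ⟨⟨⟨hx, hy, hz⟩, ⟨hu, hv, hw⟩⟩, h⟩ := hq
    have h' : (x : ℤ) ^ 2 + y ^ 2 + z ^ 2 = u ^ 2 + v ^ 2 + w ^ 2 := by exact_mod_cast h
    simp only [six, energyMap, Finset.coe_filter, Finset.mem_product, Finset.mem_Icc,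
      Set.mem_setOf_eq]
    refine ⟨⟨⟨⟨by omega, by omega⟩, ⟨by omega, by omega⟩, ⟨by omega, by omega⟩⟩,
      ⟨⟨by omega, by omega⟩, ⟨by omega, by omega⟩, ⟨by omega, by omega⟩⟩⟩, ?_⟩
    push_cast
    linear_combination h'
  · rintro ⟨⟨x, y, z⟩, ⟨u, v, w⟩⟩ - ⟨⟨x', y', z'⟩, ⟨u', v', w'⟩⟩ - h
    simp only [energyMap, Prod.mk.injEq] at h
    obtain ⟨⟨h1, h2, h3⟩, ⟨h4, h5, h6⟩⟩ := h
    simp only [Prod.mk.injEq]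
    refine ⟨⟨by omega, by omega, by omega⟩, ⟨by omega, by omega, by omega⟩⟩

end CoprimeSquares
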