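import Mathlib
import Pool.Agent.Lib.MP_b91f88_ntD.BadPairs

/-!
# MP_b91f88_ntD: many triples are pairwise coprime
-/

set_option autoImplicit false

namespace CoprimeSquares

open Finset

private theorem card_le_of_map {M : ℕ} (B : Finset (ℕ × ℕ)) (U : Finset (ℕ × ℕ × ℕ))
    (f : ℕ × ℕ × ℕ → (ℕ × ℕ) × ℕ) (hf : Function.Injective f)
    (hU : ∀ t ∈ U, f t ∈ B ×ˢ range M) (hB : 6 * B.card ≤ M ^ 2) : 6 * U.card ≤ M ^ 3 := by
  have h1 : U.card ≤ (B ×ˢ range M).card :=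
    card_le_card_of_injOn f (fun t ht => hU t ht) (fun x _ y _ h => hf h)
  rw [card_product, card_range] at h1
  calc 6 * U.card ≤ 6 * (B.card * M) := Nat.mul_le_mul_left _ h1
    _ = (6 * B.card) * M := by ring
    _ ≤ M ^ 2 * M := Nat.mul_le_mul_right _ hB
    _ = M ^ 3 := by ring

theorem good_triples (a b : ℕ) (ha : 1 ≤ a) (ha4 : a ≤ 4) (hb : 1 ≤ b) (hb4 : b ≤ 4)
    (h2 : ¬ (2 ∣ a ∧ 2 ∣ b)) (h3 : ¬ (3 ∣ a ∧ 3 ∣ b)) :
    ∃ M₀ : ℕ, ∀ M : ℕ, M₀ ≤ M →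
      M ^ 3 ≤ 2 * ((range M ×ˢ range M ×ˢ range M).filter fun t : ℕ × ℕ × ℕ =>
        Nat.Coprime (12 * t.1 + a) (12 * t.2.1 + b) ∧
        Nat.Coprime (12 * t.1 + a) (12 * t.2.2 + 1) ∧
        Nat.Coprime (12 * t.2.1 + b) (12 * t.2.2 + 1)).card := by
  classical
  obtain ⟨M1, hM1⟩ := bad_pairs a b ha ha4 hb hb4 h2 h3
  obtain ⟨M2, hM2⟩ := bad_pairs a 1 ha ha4 le_rfl (by norm_num) (by omega) (by omega)
  obtain ⟨M3, hM3⟩ := bad_pairs b 1 hb hb4 le_rfl (by norm_num) (by omega) (by omega)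
  refine ⟨max M1 (max M2 M3), fun M hM => ?_⟩
  have e1 := hM1 M ((le_max_left _ _).trans hM)
  have e2 := hM2 M ((le_max_left _ _).trans ((le_max_right _ _).trans hM))
  have e3 := hM3 M ((le_max_right _ _).trans ((le_max_right _ _).trans hM))
  set S := range M ×ˢ range M ×ˢ range M with hS
  have hScard : S.card = M ^ 3 := by
    rw [hS, card_product, card_product, card_range]; ring
  set P : ℕ × ℕ × ℕ → Prop := fun t => Nat.Coprime (12 * t.1 + a) (12 * t.2.1 + b) ∧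
        Nat.Coprime (12 * t.1 + a) (12 * t.2.2 + 1) ∧
        Nat.Coprime (12 * t.2.1 + b) (12 * t.2.2 + 1) with hP
  set U1 := S.filter fun t => ¬ Nat.Coprime (12 * t.1 + a) (12 * t.2.1 + b) with hU1
  set U2 := S.filter fun t => ¬ Nat.Coprime (12 * t.1 + a) (12 * t.2.2 + 1) with hU2
  set U3 := S.filter fun t => ¬ Nat.Coprime (12 * t.2.1 + b) (12 * t.2.2 + 1) with hU3
  have c1 : 6 * U1.card ≤ M ^ 3 := by
    refine card_le_of_map _ U1 (fun t => ((t.1, t.2.1), t.2.2)) ?_ ?_ e1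
    · rintro ⟨x, y, z⟩ ⟨x', y', z'⟩ h
      simp only [Prod.mk.injEq] at h ⊢
      exact ⟨h.1.1, h.1.2, h.2⟩
    · rintro ⟨x, y, z⟩ ht
      simp only [hU1, hS, mem_filter, mem_product, mem_range] at ht ⊢
      exact ⟨⟨⟨ht.1.1, ht.1.2.1⟩, ht.2⟩, ht.1.2.2⟩
  have c2 : 6 * U2.card ≤ M ^ 3 := by
    refine card_le_of_map _ U2 (fun t => ((t.1, t.2.2), t.2.1)) ?_ ?_ e2
    · rintro ⟨x, y, z⟩ ⟨x', y', z'⟩ h
      simp only [Prod.mk.injEq] at h ⊢
      exact ⟨h.1.1, h.2, h.1.2⟩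
    · rintro ⟨x, y, z⟩ ht
      simp only [hU2, hS, mem_filter, mem_product, mem_range] at ht ⊢
      exact ⟨⟨⟨ht.1.1, ht.1.2.2⟩, ht.2⟩, ht.1.2.1⟩
  have c3 : 6 * U3.card ≤ M ^ 3 := by
    refine card_le_of_map _ U3 (fun t => ((t.2.1, t.2.2), t.1)) ?_ ?_ e3
    · rintro ⟨x, y, z⟩ ⟨x', y', z'⟩ h
      simp only [Prod.mk.injEq] at h ⊢
      exact ⟨h.2, h.1.1, h.1.2⟩
    · rintro ⟨x, y, z⟩ ht
      simp only [hU3, hS, mem_filter, mem_product, mem_range] at ht ⊢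
      exact ⟨⟨⟨ht.1.2.1, ht.1.2.2⟩, ht.2⟩, ht.1.1⟩
  have hsub : S.filter (fun t => ¬ P t) ⊆ U1 ∪ (U2 ∪ U3) := by
    intro t ht
    rw [mem_filter] at ht
    by_cases p1 : Nat.Coprime (12 * t.1 + a) (12 * t.2.1 + b)
    · by_cases p2 : Nat.Coprime (12 * t.1 + a) (12 * t.2.2 + 1)
      · have p3 : ¬ Nat.Coprime (12 * t.2.1 + b) (12 * t.2.2 + 1) := fun p3 => ht.2 ⟨p1, p2, p3⟩
        exact mem_union_right _ (mem_union_right _ (mem_filter.2 ⟨ht.1, p3⟩))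
      · exact mem_union_right _ (mem_union_left _ (mem_filter.2 ⟨ht.1, p2⟩))
    · exact mem_union_left _ (mem_filter.2 ⟨ht.1, p1⟩)
  have hle : (S.filter (fun t => ¬ P t)).card ≤ U1.card + (U2.card + U3.card) :=
    (card_le_card hsub).trans ((card_union_le _ _).trans
      (Nat.add_le_add_left (card_union_le _ _) _))
  have hsum : (S.filter P).card + (S.filter (fun t => ¬ P t)).card = S.card :=
    card_filter_add_card_filter_not _
  change M ^ 3 ≤ 2 * (S.filter P).card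
  rw [hScard] at hsum
  omega

end CoprimeSquares
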