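import Mathlib
import Pool.Agent.Lib.MP_b91f88_nt.Defs

/-!
# MP_b91f88_ntD: residues and representations
-/

set_option autoImplicit false

namespace CoprimeSquares

theorem table : ∀ c ∈ Finset.range 24, ∃ a ∈ Finset.Icc 1 4, ∃ b ∈ Finset.Icc 1 4,
    ∃ m ∈ Finset.range 8, ¬ (2 ∣ a ∧ 2 ∣ b) ∧ ¬ (3 ∣ a ∧ 3 ∣ b) ∧ m + 3 = lb c ∧
      (a ^ 2 + b ^ 2 + 1 + m) % 24 = c := by
  decide

theorem sq_mod (i a : ℕ) : (12 * i + a) ^ 2 % 24 = a ^ 2 % 24 := by
  have : (12 * i + a) ^ 2 = 24 * (6 * i ^ 2 + i * a) + a ^ 2 := by ring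
  omega

theorem isSum_triple {x y z : ℕ} (hx : 0 < x) (hy : 0 < y) (hz : 0 < z)
    (hxy : Nat.Coprime x y) (hxz : Nat.Coprime x z) (hyz : Nat.Coprime y z) :
    ∀ m : ℕ, IsSum (x ^ 2 + y ^ 2 + z ^ 2 + m) (m + 3) := by
  intro m
  induction m with
  | zero =>
    refine ⟨![x, y, z], ?_, ?_, ?_⟩
    · intro i; fin_cases i <;> simp [hx, hy, hz]
    · intro i j hij
      fin_cases i <;> fin_cases j <;>
        first
          | exact absurd rfl hij
          | simpa using hxy
          | simpa using hxz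
          | simpa using hyz
          | simpa using hxy.symm
          | simpa using hxz.symm
          | simpa using hyz.symm
    · simp [Fin.sum_univ_three]
  | succ m ih =>
    obtain ⟨w, h1, h2, h3⟩ := ih
    refine ⟨Fin.cons 1 w, ?_, ?_, ?_⟩
    · intro i
      refine Fin.cases ?_ (fun j => ?_) i
      · simp
      · simpa using h1 j
    · intro i
      refine Fin.cases ?_ (fun i' => ?_) i
      · intro j _; simp
      · intro j
        refine Fin.cases ?_ (fun j' => ?_) j
        · intro _; simp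
        · intro hij
          simpa using h2 i' j' fun h => hij (by rw [h])
    · rw [Fin.sum_univ_succ]
      simp only [Fin.cons_zero, Fin.cons_succ, h3]
      ring

end CoprimeSquares
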