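import Mathlib
import Pool.Agent.Lib.MP_b91f88_nt.Main
import Pool.Agent.Lib.MP_b91f88_ntD.Tab
import Pool.Agent.Lib.MP_b91f88_ntD.Good
import Pool.Agent.Lib.MP_b91f88_ntD.Energy
import Pool.Agent.Lib.MP_b91f88_ntD.Cauchy

/-!
# MP_b91f88_ntD: the lower bounds are attained by a positive proportion
-/

set_option autoImplicit false

namespace CoprimeSquares

open Finset

theorem many (a b m : ℕ) (ha : 1 ≤ a) (ha4 : a ≤ 4) (hb : 1 ≤ b) (hb4 : b ≤ 4) (hm : m ≤ 7)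
    (h2 : ¬ (2 ∣ a ∧ 2 ∣ b)) (h3 : ¬ (3 ∣ a ∧ 3 ∣ b)) :
    ∃ N₀ : ℕ, ∀ N : ℕ, N₀ ≤ N →
      N ≤ 156028108800 * ((Icc 1 N).filter fun n =>
        n % 24 = (a ^ 2 + b ^ 2 + 1 + m) % 24 ∧ g n ≤ m + 3).card := by
  classical
  obtain ⟨M0, hM0⟩ := good_triples a b ha ha4 hb hb4 h2 h3
  refine ⟨775 * (M0 + 1) ^ 2, fun N hN => ?_⟩
  set M := Nat.sqrt (N / 775) with hM
  have hMM : M * M ≤ N / 775 := Nat.sqrt_le _
  have hMM' : N / 775 < (M + 1) * (M + 1) := Nat.lt_succ_sqrt _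
  have hM1 : M0 + 1 ≤ M := by
    rw [hM, Nat.le_sqrt']
    rw [Nat.le_div_iff_mul_le (by norm_num)]
    linarith
  have hMpos : 1 ≤ M := by omega
  have hN1 : 775 * (M * M) ≤ N := by
    calc 775 * (M * M) ≤ 775 * (N / 775) := Nat.mul_le_mul_left _ hMM
      _ ≤ N := Nat.mul_div_le _ _
  have hN2 : N ≤ 3100 * M ^ 2 := by
    have h4 : N < 775 * ((M + 1) * (M + 1)) := by
      have := Nat.lt_mul_div_succ N (show 0 < 775 by norm_num)
      calc N < 775 * (N / 775 + 1) := this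
        _ ≤ 775 * ((M + 1) * (M + 1)) := Nat.mul_le_mul_left _ hMM'
    nlinarith
  set T := (range M ×ˢ range M ×ˢ range M).filter fun t : ℕ × ℕ × ℕ =>
        Nat.Coprime (12 * t.1 + a) (12 * t.2.1 + b) ∧
        Nat.Coprime (12 * t.1 + a) (12 * t.2.2 + 1) ∧
        Nat.Coprime (12 * t.2.1 + b) (12 * t.2.2 + 1) with hT
  have hTc : M ^ 3 ≤ 2 * T.card := hM0 M (by omega)
  set v : ℕ × ℕ × ℕ → ℕ := fun t =>
    (12 * t.1 + a) ^ 2 + (12 * t.2.1 + b) ^ 2 + (12 * t.2.2 + 1) ^ 2 with hv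
  have hCS := card_sq_le T v
  have hmem : ∀ t ∈ T, t.1 < M ∧ t.2.1 < M ∧ t.2.2 < M := by
    intro t ht
    have := (mem_filter.1 ht).1
    simp only [mem_product, mem_range] at this
    exact this
  have hE : ((T ×ˢ T).filter fun q => v q.1 = v q.2).card ≤ 192 * (16 * M) ^ 4 := by
    refine le_trans (card_le_card_of_injOn
      (fun q => ((12 * q.1.1 + a, 12 * q.1.2.1 + b, 12 * q.1.2.2 + 1),
        (12 * q.2.1 + a, 12 * q.2.2.1 + b, 12 * q.2.2.2 + 1))) ?_ ?_) (energy (16 * M))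
    · rintro ⟨⟨x, y, z⟩, ⟨x', y', z'⟩⟩ hq
      have hq' := mem_filter.1 hq
      have hq1 := hmem _ (mem_product.1 hq'.1).1
      have hq2 := hmem _ (mem_product.1 hq'.1).2
      have hq3 := hq'.2
      simp only [hv] at hq3
      simp only at hq1 hq2
      simp only [coe_filter, mem_product, mem_Icc, Set.mem_ofPred_eq]
      refine ⟨⟨⟨⟨?_, ?_⟩, ⟨?_, ?_⟩, ⟨?_, ?_⟩⟩, ⟨⟨?_, ?_⟩, ⟨?_, ?_⟩, ⟨?_, ?_⟩⟩⟩, hq3⟩ <;> omega
    · rintro ⟨⟨x, y, z⟩, ⟨x', y', z'⟩⟩ _ ⟨⟨u, w, s⟩, ⟨u', w', s'⟩⟩ _ h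
      simp only [Prod.mk.injEq] at h ⊢
      refine ⟨⟨?_, ?_, ?_⟩, ⟨?_, ?_, ?_⟩⟩ <;> omega
  set I := (T.image v).card with hI
  have hkey : M ^ 2 ≤ 50331648 * I := by
    have h1 : M ^ 6 ≤ 4 * T.card ^ 2 := by
      calc M ^ 6 = (M ^ 3) ^ 2 := by ring
        _ ≤ (2 * T.card) ^ 2 := Nat.pow_le_pow_left hTc 2
        _ = 4 * T.card ^ 2 := by ring
    have h4 : M ^ 4 * M ^ 2 ≤ M ^ 4 * (50331648 * I) := by
      calc M ^ 4 * M ^ 2 = M ^ 6 := by ring
        _ ≤ 4 * T.card ^ 2 := h1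
        _ ≤ 4 * (I * (192 * (16 * M) ^ 4)) :=
          Nat.mul_le_mul_left _ (hCS.trans (Nat.mul_le_mul_left _ hE))
        _ = M ^ 4 * (50331648 * I) := by ring
    exact Nat.le_of_mul_le_mul_left h4 (by positivity)
  have hIB : I ≤ ((Icc 1 N).filter fun n =>
        n % 24 = (a ^ 2 + b ^ 2 + 1 + m) % 24 ∧ g n ≤ m + 3).card := by
    rw [hI]
    refine card_le_card_of_injOn (fun n => n + m) ?_ (fun x _ y _ h => by simpa using h)
    intro n hn
    obtain ⟨t, ht, rfl⟩ := mem_image.1 hn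
    obtain ⟨hx, hy, hz⟩ := hmem t ht
    have hc := (mem_filter.1 ht).2
    have hs1 := sq_mod t.1 a
    have hs2 := sq_mod t.2.1 b
    have hs3 := sq_mod t.2.2 1
    have hX : 12 * t.1 + a ≤ 16 * M := by omega
    have hY : 12 * t.2.1 + b ≤ 16 * M := by omega
    have hZ : 12 * t.2.2 + 1 ≤ 16 * M := by omega
    have hX2 := Nat.pow_le_pow_left hX 2
    have hY2 := Nat.pow_le_pow_left hY 2
    have hZ2 := Nat.pow_le_pow_left hZ 2
    have hpos : 0 < (12 * t.2.2 + 1) ^ 2 := by positivity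
    have hsum : IsSum (v t + m) (m + 3) :=
      isSum_triple (by omega) (by omega) (by omega) hc.1 hc.2.1 hc.2.2 m
    have hg : g (v t + m) ≤ m + 3 := Nat.sInf_le ⟨by omega, hsum⟩
    have hMsq : M ^ 2 = M * M := by ring
    have hM2pos : 1 ≤ M * M := Nat.mul_le_mul hMpos hMpos
    have hle : v t + m ≤ N := by
      have : v t ≤ 768 * (M * M) := by
        have e : (16 * M) ^ 2 = 256 * (M * M) := by ring
        rw [e] at hX2 hY2 hZ2
        simp only [hv]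
        omega
      omega
    have hmod : (v t + m) % 24 = (a ^ 2 + b ^ 2 + 1 + m) % 24 := by
      simp only [hv]
      omega
    simp only [coe_filter, mem_Icc, Set.mem_ofPred_eq]
    refine ⟨⟨?_, hle⟩, hmod, hg⟩
    simp only [hv]
    omega
  calc N ≤ 3100 * M ^ 2 := hN2
    _ ≤ 3100 * (50331648 * I) := Nat.mul_le_mul_left _ hkey
    _ = 156028108800 * I := by ring
    _ ≤ _ := Nat.mul_le_mul_left _ hIB

theorem class_many (c : ℕ) (hc : c < 24) : ∃ N₀ : ℕ, ∀ N : ℕ, N₀ ≤ N →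
    (1 / 156028108800 : ℝ) * N ≤
      (((Icc 1 N).filter fun n => n % 24 = c ∧ g n ≤ lb c).card : ℝ) := by
  obtain ⟨a, ha, b, hb, m, hm, h2, h3, hlb, hmod⟩ := table c (mem_range.2 hc)
  rw [mem_Icc] at ha hb
  obtain ⟨N0, hN0⟩ := many a b m ha.1 ha.2 hb.1 hb.2 (by have := mem_range.1 hm; omega) h2 h3
  refine ⟨N0, fun N hN => ?_⟩
  have h := hN0 N hN
  rw [hmod, hlb] at h
  have h' : (N : ℝ) ≤ 156028108800 *
      (((Icc 1 N).filter fun n => n % 24 = c ∧ g n ≤ lb c).card : ℝ) := by exact_mod_cast h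
  linarith

theorem attained : ∃ δ : ℝ, 0 < δ ∧ ∃ N₀ : ℕ, ∀ N : ℕ, N₀ ≤ N → ∀ c < 24,
    δ * N ≤ (((Finset.Icc 1 N).filter fun n => n % 24 = c ∧ g n = lb c).card : ℝ) := by
  classical
  have hall : ∀ c : ℕ, ∃ N₀ : ℕ, ∀ N : ℕ, N₀ ≤ N → c < 24 →
      (1 / 156028108800 : ℝ) * N ≤
        (((Icc 1 N).filter fun n => n % 24 = c ∧ g n ≤ lb c).card : ℝ) := by
    intro c
    by_cases hc : c < 24
    · obtain ⟨N0, h⟩ := class_many c hc
      exact ⟨N0, fun N hN _ => h N hN⟩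
    · exact ⟨0, fun N _ h => absurd h hc⟩
  choose f hf using hall
  obtain ⟨N1, hN1⟩ := few (ε := 1 / 312056217600) (by norm_num)
  refine ⟨1 / 312056217600, by norm_num, max N1 ((range 24).sup f), fun N hN c hc => ?_⟩
  have hA := hf c N ((le_sup (mem_range.2 hc)).trans ((le_max_right _ _).trans hN)) hc
  have hF := hN1 N ((le_max_left _ _).trans hN)
  have hsub : (Icc 1 N).filter (fun n => n % 24 = c ∧ g n ≤ lb c) ⊆
      ((Icc 1 N).filter fun n => n % 24 = c ∧ g n = lb c) ∪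
        ((Icc 1 N).filter fun n => g n < lb (n % 24)) := by
    intro n hn
    rw [mem_filter] at hn
    obtain ⟨h1, h2, h3⟩ := hn
    rcases Nat.lt_or_ge (g n) (lb c) with h | h
    · exact mem_union_right _ (mem_filter.2 ⟨h1, by rw [h2]; exact h⟩)
    · exact mem_union_left _ (mem_filter.2 ⟨h1, h2, le_antisymm h3 h⟩)
  have hcard := (card_le_card hsub).trans (card_union_le _ _)
  have hcard' : (((Icc 1 N).filter (fun n => n % 24 = c ∧ g n ≤ lb c)).card : ℝ) ≤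
      (((Icc 1 N).filter fun n => n % 24 = c ∧ g n = lb c).card : ℝ) +
        (((Icc 1 N).filter fun n => g n < lb (n % 24)).card : ℝ) := by exact_mod_cast hcard
  linarith

end CoprimeSquares
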